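import Pool.Agent.Lib.MP_63dc40_ag.Alg
import Pool.Agent.Lib.MP_63dc40_ag.Bounds
import Pool.Agent.H52.Fol.AffDim

set_option autoImplicit false

namespace Pool.Agent.Results.MP_63dc40_ag.SingularPoint

open MvPolynomial

/-- Exponent vectors of the monomials of degree `e` in `x_0, …, x_n`. -/
abbrev Mon (n e : ℕ) : Type :=
  {m : Fin (n + 1) →₀ ℕ // m ∈ (Finset.univ : Finset (Fin (n + 1))).finsuppAntidiag e}

/-- Labels of the coefficients of a form `∑ a_i dx_i` with all `a_i` homogeneous of degree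
`d + 1`: the label `(i, m)` stands for the coefficient of the monomial `x^m` in `a_i`. -/
abbrev Lab (n d : ℕ) : Type := Fin (n + 1) × Mon n (d + 1)

/-- The coefficient of `dx_i ∧ dx_j ∧ dx_k` in `ω ∧ dω`, for `ω = ∑ a_i dx_i`. -/
noncomputable def wedge {B : Type} [CommRing B] {n : ℕ}
    (a : Fin (n + 1) → MvPolynomial (Fin (n + 1)) B) (i j k : Fin (n + 1)) :
    MvPolynomial (Fin (n + 1)) B :=
  a i * (pderiv j (a k) - pderiv k (a j)) + a j * (pderiv k (a i) - pderiv i (a k))
    + a k * (pderiv i (a j) - pderiv j (a i))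

/-- The universal form: its coefficients are the coordinates on the space of all forms. -/
noncomputable def univForm (n d : ℕ) (i : Fin (n + 1)) :
    MvPolynomial (Fin (n + 1)) (MvPolynomial (Lab n d) ℂ) :=
  ∑ m : Mon n (d + 1), monomial m.1 (X (i, m))

/-- The linear equations `∑ x_i a_i = 0` on the coefficients. -/
noncomputable def eulerEqs (n d : ℕ) : Set (MvPolynomial (Lab n d) ℂ) :=
  Set.range fun m : Fin (n + 1) →₀ ℕ => coeff m (∑ i, X i * univForm n d i)

/-- The quadratic equations `ω ∧ dω = 0` on the coefficients. -/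
noncomputable def wedgeEqs (n d : ℕ) : Set (MvPolynomial (Lab n d) ℂ) :=
  {r | ∃ i j k m, r = coeff m (wedge (univForm n d) i j k)}

/-- The ideal of the scheme of integrable twisted forms in the standard affine chart of the
projective space where the coefficient with label `p` is normalised to `1`. -/
noncomputable def chartIdeal (n d : ℕ) (p : Lab n d) : Ideal (MvPolynomial (Lab n d) ℂ) :=
  Ideal.span ({X p - 1} ∪ eulerEqs n d ∪ wedgeEqs n d)

/-- The coordinate ring of that chart. -/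
abbrev Chart (n d : ℕ) (p : Lab n d) : Type := MvPolynomial (Lab n d) ℂ ⧸ chartIdeal n d p

/-- `F` is the point of the chart whose coordinates are the coefficients of the form `a`. -/
def IsPointOf {n d : ℕ} {p : Lab n d} (F : PrimeSpectrum (Chart n d p))
    (a : Fin (n + 1) → MvPolynomial (Fin (n + 1)) ℂ) : Prop :=
  ∀ f : MvPolynomial (Lab n d) ℂ, Ideal.Quotient.mk (chartIdeal n d p) f ∈ F.asIdeal ↔
    eval (fun q : Lab n d => coeff q.2.1 (a q.1)) f = 0

/-- The dimension of the affine zero set of a set of polynomials. -/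
noncomputable def coneDim {n : ℕ} (S : Set (MvPolynomial (Fin (n + 1)) ℂ)) : WithBot ℕ∞ :=
  ringKrullDim (MvPolynomial (Fin (n + 1)) ℂ ⧸ Ideal.span S)

/-- The coefficients of `dω` for `ω = ∑ a_i dx_i`. -/
def dCoeffs {n : ℕ} (a : Fin (n + 1) → MvPolynomial (Fin (n + 1)) ℂ) :
    Set (MvPolynomial (Fin (n + 1)) ℂ) :=
  Set.range fun q : Fin (n + 1) × Fin (n + 1) => pderiv q.1 (a q.2) - pderiv q.2 (a q.1)

/-- The dimension of the Zariski tangent space of a local ring: the dual of `m / m ^ 2` over the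
residue field. -/
noncomputable def tangentDim (R : Type) [CommRing R] [IsLocalRing R] : ℕ :=
  Module.finrank (IsLocalRing.ResidueField R)
    (Module.Dual (IsLocalRing.ResidueField R) (IsLocalRing.CotangentSpace R))

theorem sum_mon {B : Type} [CommRing B] {n e : ℕ} (f : MvPolynomial (Fin (n + 1)) B)
    (hf : f.IsHomogeneous e) : ∑ m : Mon n e, monomial m.1 (coeff m.1 f) = f := by
  rw [Finset.sum_coe_sort ((Finset.univ : Finset (Fin (n + 1))).finsuppAntidiag e)
    (fun m => monomial m (coeff m f))]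
  conv_rhs => rw [f.as_sum]
  symm
  refine Finset.sum_subset ?_ ?_
  · intro m hm
    rw [Finset.mem_finsuppAntidiag]
    refine ⟨?_, Finset.subset_univ _⟩
    have h := hf (mem_support_iff.1 hm)
    rw [← h, Finsupp.weight_apply, Finsupp.sum_fintype _ _ (by simp)]
    simp
  · intro m _ hm
    rw [notMem_support_iff.1 hm, map_zero]

open Pool.Agent.Lib.MP_63dc40_ag in
/-- There is a codimension one foliation of a projective space, given by `ω = ∑ a_i dx_i`, with
singular set of codimension at least two and non-Kupka set of codimension at least three, such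
that every irreducible component of the space of foliations through it has dimension strictly
smaller than the dimension of the Zariski tangent space there. -/
theorem result :
    ∃ (n d : ℕ) (a : Fin (n + 1) → MvPolynomial (Fin (n + 1)) ℂ) (p : Lab n d)
      (F : PrimeSpectrum (Chart n d p)),
      2 ≤ n ∧ (∀ i, (a i).IsHomogeneous (d + 1)) ∧ ∑ i, X i * a i = 0 ∧
      (∀ i j k, wedge a i j k = 0) ∧ coeff p.2.1 (a p.1) = 1 ∧
      coneDim (Set.range a) + 1 ≤ (n : WithBot ℕ∞) ∧
      coneDim (Set.range a ∪ dCoeffs a) + 2 ≤ (n : WithBot ℕ∞) ∧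
      IsPointOf F a ∧
      ∀ Z ∈ irreducibleComponents (PrimeSpectrum (Chart n d p)), F ∈ Z →
        topologicalKrullDim Z <
          (tangentDim (Localization.AtPrime F.asIdeal) : WithBot ℕ∞) := by
  classical
  let m₀ : Fin 4 →₀ ℕ := Finsupp.single 0 1 + Finsupp.single 1 1 + Finsupp.single 2 6
  have hm₀ : m₀ ∈ (Finset.univ : Finset (Fin (3 + 1))).finsuppAntidiag (7 + 1) := by
    rw [Finset.mem_finsuppAntidiag]
    refine ⟨?_, Finset.subset_univ _⟩
    simp [m₀, Fin.sum_univ_four]
  let p₀ : Lab 3 7 := ((3 : Fin 4), ⟨m₀, hm₀⟩)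
  let G := univForm 3 7
  let I := chartIdeal 3 7 p₀
  let c : Lab 3 7 → ℂ := fun p => coeff p.2.1 (om ℂ p.1)
  let v : Lab 3 7 → ℂ := fun p => coeff p.2.1 (et ℂ p.1)
  have hc1 : c p₀ = 1 := by
    change coeff m₀ (om ℂ 3) = 1
    have h : om ℂ 3 = monomial m₀ 1 + monomial (Finsupp.single 0 1 + Finsupp.single 1 1
        + Finsupp.single 2 1 + Finsupp.single 3 5) 6 := by
      simp only [m₀, monomial_add_single, ← C_mul_X_pow_eq_monomial]
      simp [om]
      rw [show (C 6 : MvPolynomial (Fin 4) ℂ) = 6 from map_ofNat C 6]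
      ring
    rw [h, coeff_add, coeff_monomial, coeff_monomial, if_pos rfl, if_neg, add_zero]
    intro h2
    have := DFunLike.congr_fun h2 3
    simp [m₀] at this
  have hv0 : v p₀ = 0 := by
    change coeff m₀ (et ℂ 3) = 0
    simp [et]
  have hmapG : ∀ {B : Type} [CommRing B] (f : MvPolynomial (Lab 3 7) ℂ →+* B) (i : Fin 4),
      MvPolynomial.map f (G i) = ∑ m : Mon 3 (7 + 1), monomial m.1 (f (X (i, m))) := by
    intro B _ f i
    simp only [G, univForm, map_sum, map_monomial]
  have hmapTh : ∀ {B : Type} [CommRing B] (f : MvPolynomial (Lab 3 7) ℂ →+* B) (i j k : Fin 4),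
      MvPolynomial.map f (wedge G i j k) =
        Th (fun i => MvPolynomial.map f (G i)) (fun i => MvPolynomial.map f (G i)) i j k := by
    intro B _ f i j k
    simp only [wedge, Th, map_add, map_mul, map_sub, pderiv_map]
  have hjet : ∀ {B : Type} [CommRing B] [Algebra ℂ B] (f : MvPolynomial (Lab 3 7) ℂ →+* B) (t : B)
      (z : Lab 3 7 → B),
      (∀ p, f (X p) = algebraMap ℂ B (c p) + algebraMap ℂ B (v p) * t + z p * t ^ 2) →
      ∀ i, MvPolynomial.map f (G i) =
        fo t i + C (t ^ 2) * ∑ m : Mon 3 (7 + 1), monomial m.1 (z (i, m)) := by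
    intro B _ _ f t z hf i
    rw [hmapG, fo, ← sum_mon (n := 3) (om B i) (om_hom i), ← sum_mon (n := 3) (et B i) (et_hom i),
      Finset.mul_sum, Finset.mul_sum, ← Finset.sum_add_distrib, ← Finset.sum_add_distrib]
    refine Finset.sum_congr rfl fun s _ => ?_
    rw [hf, ← map_om (algebraMap ℂ B), ← map_et (algebraMap ℂ B), coeff_map, coeff_map,
      C_mul_monomial, C_mul_monomial, ← map_add, ← map_add]
    congr 1
    simp only [c, v]
    ring
  have hker : ∀ {B : Type} [CommRing B] [Algebra ℂ B] (f : MvPolynomial (Lab 3 7) ℂ →+* B) (t : B),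
      t ^ 2 = 0 → (∀ p, f (X p) = algebraMap ℂ B (c p) + algebraMap ℂ B (v p) * t) →
      I ≤ RingHom.ker f := by
    intro B _ _ f t ht hf
    have hG : ∀ i, MvPolynomial.map f (G i) = fo t i := by
      intro i
      rw [hjet f t 0 (fun p => by simp [hf]) i, ht, map_zero, zero_mul, add_zero]
    refine Ideal.span_le.2 ?_
    rintro r ((rfl | ⟨m, rfl⟩) | ⟨i, j, k, m, rfl⟩)
    · change f _ = 0
      rw [map_sub, hf, hc1, hv0]
      simp
    · change f (coeff m (∑ i, X i * G i)) = 0
      rw [← coeff_map]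
      simp only [map_sum, map_mul, map_X, hG]
      rw [euler_fo, coeff_zero]
    · change f (coeff m (wedge G i j k)) = 0
      rw [← coeff_map, hmapTh]
      simp only [hG]
      rw [Th_fo t ht, coeff_zero]
  have hIc : I ≤ RingHom.ker (MvPolynomial.eval c) :=
    hker (MvPolynomial.eval c) 0 (by simp) (fun p => by simp)
  let φ₀ : MvPolynomial (Lab 3 7) ℂ →ₐ[ℂ] DualNumber ℂ :=
    aeval fun p => algebraMap ℂ _ (c p) + algebraMap ℂ _ (v p) * DualNumber.eps
  have hIφ : I ≤ RingHom.ker φ₀.toRingHom :=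
    hker φ₀.toRingHom DualNumber.eps (by rw [pow_two]; exact DualNumber.eps_mul_eps)
      (fun p => by simp [φ₀])
  have hfst : ∀ a, (φ₀ a).fst = MvPolynomial.eval c a := by
    intro a
    have : (TrivSqZeroExt.fstHom ℂ ℂ ℂ).comp φ₀ = aeval c := by
      ext p
      simp [φ₀, TrivSqZeroExt.algebraMap_eq_inl]
    exact (congrArg (fun g : MvPolynomial (Lab 3 7) ℂ →ₐ[ℂ] ℂ => g a) this)
  let φ₁ : (MvPolynomial (Lab 3 7) ℂ ⧸ I) →ₐ[ℂ] DualNumber ℂ :=
    Ideal.Quotient.liftₐ I φ₀ (fun a ha => hIφ ha)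
  let P : Ideal (MvPolynomial (Lab 3 7) ℂ ⧸ I) :=
    Ideal.map (Ideal.Quotient.mk I) (RingHom.ker (MvPolynomial.eval c))
  have hPmem : ∀ a, Ideal.Quotient.mk I a ∈ P ↔ MvPolynomial.eval c a = 0 := by
    intro a
    rw [← Ideal.mem_comap, Ideal.comap_map_of_surjective _ Ideal.Quotient.mk_surjective,
      ← RingHom.ker_eq_comap_bot, Ideal.mk_ker, sup_eq_left.2 hIc, RingHom.mem_ker]
  have hPmax : P.IsMaximal := by
    have : (RingHom.ker (MvPolynomial.eval c)).IsMaximal :=
      RingHom.ker_isMaximal_of_surjective _ (fun x => ⟨C x, by simp⟩)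
    exact Ideal.IsMaximal.map_of_surjective_of_ker_le Ideal.Quotient.mk_surjective
      (by rwa [Ideal.mk_ker])
  have hP : P.IsPrime := hPmax.isPrime
  have hom0 : fo (0 : ℂ) = om ℂ := by
    funext i
    simp [fo]
  refine ⟨3, 7, om ℂ, p₀, ⟨P, hP⟩, by norm_num, om_hom, ?_, ?_, hc1, ?_, ?_, hPmem, ?_⟩
  · rw [← hom0]
    exact euler_fo 0
  · intro i j k
    rw [← hom0]
    exact Th_fo 0 (by simp) i j k
  · refine (add_le_add_left sing_dim 1).trans (le_of_eq ?_)
    norm_num
  · refine (add_le_add_left nk_dim 2).trans (le_of_eq ?_)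
    norm_num
  intro Z hZ hPZ
  refine (Pool.Agent.H52.Fol.topDim_le _ ⟨P, hP⟩ hPmax Z hZ hPZ).trans_lt ?_
  rw [tangentDim, Subspace.dual_finrank_eq,
    ← IsLocalRing.spanFinrank_maximalIdeal_eq_finrank_cotangentSpace]
  refine lt_of_le_of_ne (ringKrullDim_le_spanFinrank_maximalIdeal _) fun hreg => ?_
  have hunit : ∀ y : P.primeCompl, IsUnit (φ₁ y) := by
    rintro ⟨y, hy⟩
    obtain ⟨a, rfl⟩ := Ideal.Quotient.mk_surjective y
    have ha : MvPolynomial.eval c a ≠ 0 := fun h => hy ((hPmem a).2 h)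
    rw [TrivSqZeroExt.isUnit_iff_isUnit_fst]
    change IsUnit (φ₀ a).fst
    rw [hfst]
    exact ha.isUnit
  let φ : Localization.AtPrime P →ₐ[ℂ] DualNumber ℂ :=
    IsLocalization.liftAlgHom (M := P.primeCompl) (f := φ₁) hunit
  let π : MvPolynomial (Lab 3 7) ℂ →+* Localization.AtPrime P :=
    (algebraMap _ _).comp (Ideal.Quotient.mk I)
  have hφπ : ∀ a, φ (π a) = φ₀ a := by
    intro a
    simp [φ, π, φ₁]
  have hv : ∃ p, v p ≠ 0 := by
    by_contra hcon
    push Not at hcon
    have h0 := sum_mon (n := 3) (et ℂ 0) (et_hom 0)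
    have h1 : ∀ s : Mon 3 8, coeff s.1 (et ℂ 0) = 0 := fun s => hcon (0, s)
    simp only [h1, map_zero, Finset.sum_const_zero] at h0
    have := congrArg (MvPolynomial.eval (fun _ => (1 : ℂ))) h0
    simp [et] at this
  obtain ⟨p₁, hp₁⟩ := hv
  have hsnd : ∀ p, (φ (π (X p))).snd = v p := by
    intro p
    rw [hφπ]
    simp [φ₀, TrivSqZeroExt.algebraMap_eq_inl]
  have hfst' : ∀ p, (φ (π (X p))).fst = c p := by
    intro p
    rw [hφπ, hfst, eval_X]
  obtain ⟨K, t, ht3, ht2, hK⟩ := lift_second_order (Localization.AtPrime P) φ hreg (π (X p₁))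
    (by rw [hsnd]; exact hp₁)
  choose z hz using hK
  let Ψ : MvPolynomial (Lab 3 7) ℂ →+* (Localization.AtPrime P ⧸ K) :=
    (Ideal.Quotient.mk K).comp π
  have hΨ : ∀ p, Ψ (X p) = algebraMap ℂ _ (c p) + algebraMap ℂ _ (v p) * Ideal.Quotient.mk K t
      + Ideal.Quotient.mk K (z (π (X p))) * Ideal.Quotient.mk K t ^ 2 := by
    intro p
    have := Ideal.Quotient.eq.2 (hz (π (X p)))
    rw [hsnd, hfst'] at this
    simpa [Ψ] using this
  have hobs := obstruction (Ideal.Quotient.mk K t)
    (by rw [← map_pow]; exact Ideal.Quotient.eq_zero_iff_mem.2 ht3)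
    (fun i => ∑ m : Mon 3 (7 + 1), monomial m.1 (Ideal.Quotient.mk K (z (π (X (i, m))))))
  have hG := hjet Ψ _ _ hΨ
  simp only [← hG] at hobs
  rw [← hmapTh, coeff_map] at hobs
  have hzero : Ψ (coeff mu (wedge G 0 1 3)) = 0 := by
    have hI : coeff mu (wedge G 0 1 3) ∈ I :=
      Ideal.subset_span (Or.inr ⟨0, 1, 3, mu, rfl⟩)
    simp only [Ψ, π, RingHom.comp_apply, Ideal.Quotient.eq_zero_iff_mem.2 hI, map_zero]
  rw [hzero, eq_comm, neg_eq_zero, ← map_pow, Ideal.Quotient.eq_zero_iff_mem] at hobs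
  exact ht2 hobs

end Pool.Agent.Results.MP_63dc40_ag.SingularPoint
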